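import Mathlib

/-!
# A positive proportion of the pairs in a sector is coprime
-/

set_option autoImplicit false

namespace Pool.Agent.H96.H3

/-- the pairs `b < a ≤ R`, `2 a ≤ 3 b` -/
private def sec (R : ℕ) : Finset (ℕ × ℕ) :=
  (Finset.Icc 1 R ×ˢ Finset.Icc 1 R).filter (fun p : ℕ × ℕ => p.2 < p.1 ∧ 2 * p.1 ≤ 3 * p.2)

private theorem sec_card (R : ℕ) : (sec R).card = ∑ a ∈ Finset.Icc 1 R, a / 3 := by
  classical
  have h1 : (sec R).card = ∑ a ∈ Finset.Icc 1 R,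
      ((sec R).filter (fun p : ℕ × ℕ => p.1 = a)).card := by
    refine Finset.card_eq_sum_card_fiberwise fun p hp => ?_
    have hp' := (Finset.mem_product.1 (Finset.mem_filter.1 hp).1).1
    exact hp'
  rw [h1]
  refine Finset.sum_congr rfl fun a ha => ?_
  have ha' := Finset.mem_Icc.1 ha
  have h2 : (sec R).filter (fun p : ℕ × ℕ => p.1 = a) =
      (Finset.Ico (a - a / 3) a).image fun b => (a, b) := by
    ext ⟨x, y⟩
    simp only [sec, Finset.mem_filter, Finset.mem_product, Finset.mem_Icc, Finset.mem_image,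
      Finset.mem_Ico, Prod.mk.injEq]
    constructor
    · rintro ⟨⟨⟨⟨h3, h4⟩, h5, h6⟩, h7, h8⟩, rfl⟩
      exact ⟨y, ⟨by omega, h7⟩, rfl, rfl⟩
    · rintro ⟨b, ⟨h3, h4⟩, rfl, rfl⟩
      exact ⟨⟨⟨ha', by omega, by omega⟩, h4, by omega⟩, rfl⟩
  rw [h2, Finset.card_image_of_injective _ (Prod.mk_right_injective a), Nat.card_Ico]
  omega

private theorem sec_formula (M : ℕ) :
    6 * (∑ a ∈ Finset.Icc 1 M, a / 3) + M + (if M % 3 = 2 then 2 else 0) = M * M := by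
  induction M with
  | zero => simp
  | succ M ih =>
    rw [Finset.sum_Icc_succ_top (by omega)]
    obtain ⟨q, hq⟩ : ∃ q, q = M / 3 := ⟨_, rfl⟩
    have h3 : M % 3 = 0 ∨ M % 3 = 1 ∨ M % 3 = 2 := by omega
    rcases h3 with h | h | h
    · have hM : M = 3 * q := by omega
      have e1 : (M + 1) / 3 = q := by omega
      rw [e1, if_neg (by omega)]
      rw [if_neg (by omega)] at ih
      nlinarith
    · have hM : M = 3 * q + 1 := by omega
      have e1 : (M + 1) / 3 = q := by omega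
      rw [e1, if_pos (by omega)]
      rw [if_neg (by omega)] at ih
      nlinarith
    · have hM : M = 3 * q + 2 := by omega
      have e1 : (M + 1) / 3 = q + 1 := by omega
      rw [e1, if_neg (by omega)]
      rw [if_pos h] at ih
      nlinarith

private theorem sec_le (R : ℕ) : 6 * (sec R).card ≤ R * R := by
  have := sec_formula R
  rw [sec_card]
  omega

private theorem sec_ge (R : ℕ) : R * R ≤ 6 * (sec R).card + R + 2 := by
  have := sec_formula R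
  rw [sec_card]
  split_ifs at this <;> omega

private theorem sec_div (R g : ℕ) (hg : 0 < g) :
    ((sec R).filter (fun p : ℕ × ℕ => g ∣ p.1 ∧ g ∣ p.2)).card ≤ (sec (R / g)).card := by
  classical
  refine Finset.card_le_card_of_injOn (fun p => (p.1 / g, p.2 / g)) ?_ ?_
  · rintro ⟨x, y⟩ hp
    rw [Finset.mem_coe, sec, Finset.mem_filter, Finset.mem_filter, Finset.mem_product,
      Finset.mem_Icc, Finset.mem_Icc] at hp
    obtain ⟨⟨⟨⟨h1, h2⟩, h3, h4⟩, h5, h6⟩, ⟨u, hu⟩, ⟨v, hv⟩⟩ := hp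
    simp only at h1 h2 h3 h4 h5 h6 hu hv
    subst hu hv
    have hu1 : 1 ≤ u := Nat.pos_of_ne_zero (by rintro rfl; omega)
    have hv1 : 1 ≤ v := Nat.pos_of_ne_zero (by rintro rfl; omega)
    have h7 : v < u := lt_of_mul_lt_mul_left h5 (Nat.zero_le _)
    have h8 : 2 * u ≤ 3 * v := by
      refine le_of_mul_le_mul_left ?_ hg
      linarith
    have h9 : u ≤ R / g := (Nat.le_div_iff_mul_le hg).2 (by rw [mul_comm]; exact h2)
    have h10 : v ≤ R / g := (Nat.le_div_iff_mul_le hg).2 (by rw [mul_comm]; exact h4)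
    simp only [sec, Finset.mem_coe, Finset.mem_filter, Finset.mem_product, Finset.mem_Icc,
      Nat.mul_div_cancel_left _ hg]
    exact ⟨⟨⟨hu1, h9⟩, hv1, h10⟩, h7, h8⟩
  · rintro ⟨x, y⟩ hp ⟨x', y'⟩ hp' he
    have h1 := (Finset.mem_filter.1 hp).2
    have h2 := (Finset.mem_filter.1 hp').2
    simp only [Prod.mk.injEq] at he h1 h2 ⊢
    refine ⟨?_, ?_⟩
    · rw [← Nat.mul_div_cancel' h1.1, ← Nat.mul_div_cancel' h2.1, he.1]
    · rw [← Nat.mul_div_cancel' h1.2, ← Nat.mul_div_cancel' h2.2, he.2]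

private theorem sum_sq (n : ℕ) (hn : 2 ≤ n) :
    ∑ g ∈ Finset.Icc 2 n, 1 / (g : ℝ) ^ 2 ≤ (3 : ℝ) / 4 - 1 / (n : ℝ) := by
  induction n, hn using Nat.le_induction with
  | base =>
    rw [Finset.Icc_self, Finset.sum_singleton]
    norm_num
  | succ n hn ih =>
    rw [Finset.sum_Icc_succ_top (by omega)]
    have hn0 : (0 : ℝ) < n := by exact_mod_cast (by omega : 0 < n)
    have h1 : 1 / ((n + 1 : ℕ) : ℝ) ^ 2 ≤ 1 / (n : ℝ) - 1 / ((n + 1 : ℕ) : ℝ) := by
      push_cast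
      rw [div_sub_div _ _ hn0.ne' (by positivity), div_le_div_iff₀ (by positivity) (by positivity)]
      nlinarith
    linarith

/-- coprime pairs in the sector -/
theorem pairs : ∃ c : ℝ, 0 < c ∧ ∃ R0 : ℕ, ∀ R : ℕ, R0 ≤ R →
    c * (R : ℝ) ^ 2 ≤ (((Finset.Icc 1 R ×ˢ Finset.Icc 1 R).filter
      (fun p : ℕ × ℕ => p.2 < p.1 ∧ 2 * p.1 ≤ 3 * p.2 ∧ Nat.Coprime p.1 p.2)).card : ℝ) := by
  classical
  refine ⟨1 / 48, by norm_num, 10, fun R hR => ?_⟩
  set Co := (Finset.Icc 1 R ×ˢ Finset.Icc 1 R).filter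
      (fun p : ℕ × ℕ => p.2 < p.1 ∧ 2 * p.1 ≤ 3 * p.2 ∧ Nat.Coprime p.1 p.2) with hCo
  have hsub : sec R ⊆ Co ∪ (Finset.Icc 2 R).biUnion fun g =>
      (sec R).filter (fun p : ℕ × ℕ => g ∣ p.1 ∧ g ∣ p.2) := by
    intro p hp
    have hp0 := hp
    rw [sec, Finset.mem_filter, Finset.mem_product, Finset.mem_Icc, Finset.mem_Icc] at hp0
    by_cases hc : Nat.Coprime p.1 p.2
    · refine Finset.mem_union_left _ ?_
      rw [hCo, Finset.mem_filter]
      exact ⟨(Finset.mem_filter.1 hp).1, hp0.2.1, hp0.2.2, hc⟩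
    · refine Finset.mem_union_right _ ?_
      rw [Finset.mem_biUnion]
      refine ⟨Nat.gcd p.1 p.2, ?_, ?_⟩
      · rw [Finset.mem_Icc]
        have h1 : 0 < Nat.gcd p.1 p.2 := Nat.gcd_pos_of_pos_left _ hp0.1.1.1
        have h2 : Nat.gcd p.1 p.2 ≠ 1 := hc
        have h3 : Nat.gcd p.1 p.2 ≤ p.1 := Nat.le_of_dvd hp0.1.1.1 (Nat.gcd_dvd_left _ _)
        omega
      · rw [Finset.mem_filter]
        exact ⟨hp, Nat.gcd_dvd_left _ _, Nat.gcd_dvd_right _ _⟩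
  have hcard : (sec R).card ≤ Co.card + ∑ g ∈ Finset.Icc 2 R,
      ((sec R).filter (fun p : ℕ × ℕ => g ∣ p.1 ∧ g ∣ p.2)).card :=
    (Finset.card_le_card hsub).trans ((Finset.card_union_le _ _).trans
      (add_le_add le_rfl Finset.card_biUnion_le))
  have hcardR : ((sec R).card : ℝ) ≤ Co.card + ∑ g ∈ Finset.Icc 2 R,
      (((sec R).filter (fun p : ℕ × ℕ => g ∣ p.1 ∧ g ∣ p.2)).card : ℝ) := by
    exact_mod_cast hcard
  have hterm : ∀ g ∈ Finset.Icc 2 R,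
      (((sec R).filter (fun p : ℕ × ℕ => g ∣ p.1 ∧ g ∣ p.2)).card : ℝ) ≤
        (R : ℝ) ^ 2 / 6 * (1 / (g : ℝ) ^ 2) := by
    intro g hg
    have hg0 : 0 < g := by
      have := (Finset.mem_Icc.1 hg).1
      omega
    have hgR : (0 : ℝ) < g := by exact_mod_cast hg0
    have h1 : (((sec R).filter (fun p : ℕ × ℕ => g ∣ p.1 ∧ g ∣ p.2)).card : ℝ) ≤
        ((sec (R / g)).card : ℝ) := by exact_mod_cast sec_div R g hg0
    have h2 : 6 * ((sec (R / g)).card : ℝ) ≤ ((R / g : ℕ) : ℝ) * ((R / g : ℕ) : ℝ) := by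
      exact_mod_cast sec_le (R / g)
    have h3 : ((R / g : ℕ) : ℝ) ≤ (R : ℝ) / g := Nat.cast_div_le
    have h4 : ((R / g : ℕ) : ℝ) * ((R / g : ℕ) : ℝ) ≤ (R : ℝ) / g * ((R : ℝ) / g) :=
      mul_le_mul h3 h3 (Nat.cast_nonneg _) (by positivity)
    have h5 : (R : ℝ) / g * ((R : ℝ) / g) = (R : ℝ) ^ 2 * (1 / (g : ℝ) ^ 2) := by
      field_simp
    rw [h5] at h4
    linarith
  have hsum := Finset.sum_le_sum hterm
  rw [← Finset.mul_sum] at hsum
  have h6 := sum_sq R (by omega)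
  have h7 : (0 : ℝ) ≤ 1 / R := by positivity
  have h8 : (R : ℝ) ^ 2 / 6 * ∑ g ∈ Finset.Icc 2 R, 1 / (g : ℝ) ^ 2 ≤
      (R : ℝ) ^ 2 / 6 * (3 / 4) := mul_le_mul_of_nonneg_left (by linarith) (by positivity)
  have h9 : (R : ℝ) * R ≤ 6 * (sec R).card + R + 2 := by exact_mod_cast sec_ge R
  have h10 : (10 : ℝ) ≤ R := by exact_mod_cast hR
  nlinarith

end Pool.Agent.H96.H3
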